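import Pool.Agent.Helper1.UniqE

namespace Pool.Agent.Results.MP_618f8d_co.UniqueSubgraphs

open Filter Topology

/-- `F` is a unique (spanning) subgraph of `G`: it is contained in `G` and no other
spanning subgraph of `G` is isomorphic to it. -/
def IsUniqueSubgraph {n : ℕ} (G F : SimpleGraph (Fin n)) : Prop :=
  F ≤ G ∧ ∀ F' : SimpleGraph (Fin n), F' ≤ G → Nonempty (F' ≃g F) → F' = F

/-- the number of unique subgraphs of `G` -/
noncomputable def u {n : ℕ} (G : SimpleGraph (Fin n)) : ℕ :=
  Nat.card {F : SimpleGraph (Fin n) // IsUniqueSubgraph G F}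

/-- the number of edges, `n choose 2` minus the integer part of `n log n / log 2` -/
noncomputable def m (n : ℕ) : ℕ := n.choose 2 - ⌊(n : ℝ) * Real.log n / Real.log 2⌋₊

/-- the probability of the property `Q` for a graph chosen uniformly among the graphs on `Fin n`
with exactly `m n` edges -/
noncomputable def prob (n : ℕ) (Q : SimpleGraph (Fin n) → Prop) : ℝ :=
  (Nat.card {G : SimpleGraph (Fin n) // Nat.card G.edgeSet = m n ∧ Q G} : ℝ) /
    (Nat.card {G : SimpleGraph (Fin n) // Nat.card G.edgeSet = m n} : ℝ)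

section proof

open Finset Classical
open Pool.Agent.Helper1.UniqA Pool.Agent.Helper1.UniqB Pool.Agent.Helper1.UniqD Pool.Agent.Helper1.UniqE

variable {n : ℕ}

/-- edges as a finset -/
noncomputable def toF (G : SimpleGraph (Fin n)) : Finset (Sym2 (Fin n)) := univ.filter (fun e => e ∈ G.edgeSet)

lemma mem_toF (G : SimpleGraph (Fin n)) (e : Sym2 (Fin n)) : e ∈ toF G ↔ e ∈ G.edgeSet := by
  simp [toF]

lemma toF_inj {G G' : SimpleGraph (Fin n)} (h : toF G = toF G') : G = G' := by
  rw [← SimpleGraph.edgeSet_inj]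
  ext e
  rw [← mem_toF, ← mem_toF, h]

lemma toF_sub (G : SimpleGraph (Fin n)) : toF G ⊆ P n := by
  intro e he
  rw [mem_toF] at he
  rw [P, mem_filter]
  exact ⟨mem_univ _, G.not_isDiag_of_mem_edgeSet he⟩

lemma toF_le {F G : SimpleGraph (Fin n)} : F ≤ G ↔ toF F ⊆ toF G := by
  rw [← SimpleGraph.edgeSet_subset_edgeSet]
  constructor
  · intro h e he
    rw [mem_toF] at he ⊢
    exact h he
  · intro h e he
    rw [← mem_toF] at he ⊢
    exact h he

lemma card_toF (G : SimpleGraph (Fin n)) : (toF G).card = Nat.card G.edgeSet := by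
  rw [Nat.card_eq_fintype_card, ← Set.toFinset_card]
  congr 1
  ext e
  rw [mem_toF, Set.mem_toFinset]

noncomputable def gr (A : Finset (Sym2 (Fin n))) : SimpleGraph (Fin n) := SimpleGraph.fromEdgeSet (A : Set (Sym2 (Fin n)))

lemma toF_gr {A : Finset (Sym2 (Fin n))} (hA : A ⊆ P n) : toF (gr A) = A := by
  ext e
  rw [mem_toF, gr, SimpleGraph.edgeSet_fromEdgeSet]
  constructor
  · intro h; exact h.1
  · intro h
    refine ⟨h, ?_⟩
    have := hA h
    rw [P, mem_filter] at this
    exact this.2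

lemma gr_toF (G : SimpleGraph (Fin n)) : gr (toF G) = G := toF_inj (toF_gr (toF_sub G))

/-- subgraphs that are not unique -/
noncomputable def bad (G : SimpleGraph (Fin n)) : Finset (SimpleGraph (Fin n)) :=
  univ.filter (fun F => F ≤ G ∧ ¬ IsUniqueSubgraph G F)

lemma bad_count (G : SimpleGraph (Fin n)) :
    (bad G).card ≤ ∑ ρ ∈ univ.filter (fun ρ : Equiv.Perm (Fin n) => ρ ≠ 1),
      2 ^ ((toF G).filter (fun e => (act ρ).symm e ∈ toF G)).card := by
  have hsub : bad G ⊆ (univ.filter (fun ρ : Equiv.Perm (Fin n) => ρ ≠ 1)).biUnion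
      (fun ρ => univ.filter (fun F => toF F ⊆ (toF G).filter (fun e => (act ρ).symm e ∈ toF G))) := by
    intro F hF
    rw [bad, mem_filter] at hF
    obtain ⟨_, hFG, hnu⟩ := hF
    rw [IsUniqueSubgraph] at hnu
    push Not at hnu
    obtain ⟨F', hF', ⟨φ⟩, hne⟩ := hnu hFG
    rw [mem_biUnion]
    refine ⟨φ.toEquiv, ?_, ?_⟩
    · rw [mem_filter]
      refine ⟨mem_univ _, ?_⟩
      intro h1
      apply hne
      ext a b
      have h2 := φ.map_rel_iff (a := a) (b := b)
      have h3 : ∀ c, φ c = c := by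
        intro c
        have : φ.toEquiv c = c := by rw [h1]; rfl
        exact this
      rw [h3, h3] at h2
      exact h2.symm
    · rw [mem_filter]
      refine ⟨mem_univ _, ?_⟩
      intro e he
      rw [mem_filter]
      refine ⟨toF_le.mp hFG he, ?_⟩
      apply toF_le.mp hF'
      rw [mem_toF] at he ⊢
      induction e using Sym2.ind with
      | _ a b =>
        rw [act_symm_apply, Sym2.map_mk, SimpleGraph.mem_edgeSet]
        rw [SimpleGraph.mem_edgeSet] at he
        have h2 := φ.map_rel_iff (a := φ.toEquiv.symm a) (b := φ.toEquiv.symm b)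
        have ha : φ (φ.toEquiv.symm a) = a := φ.toEquiv.apply_symm_apply a
        have hb : φ (φ.toEquiv.symm b) = b := φ.toEquiv.apply_symm_apply b
        rw [ha, hb] at h2
        exact h2.mp he
  refine le_trans (card_le_card hsub) ?_
  refine le_trans card_biUnion_le ?_
  refine sum_le_sum ?_
  intro ρ _
  rw [← card_powerset]
  refine card_le_card_of_injOn toF ?_ ?_
  · intro F hF
    rw [mem_coe, mem_filter] at hF
    rw [mem_coe, mem_powerset]
    exact hF.2
  · intro F _ F' _ h
    exact toF_inj h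

lemma act_mem_P (ρ : Equiv.Perm (Fin n)) {e : Sym2 (Fin n)} (he : e ∈ P n) : act ρ e ∈ P n := by
  rw [P, mem_filter] at he ⊢
  refine ⟨mem_univ _, ?_⟩
  rw [act_apply, Sym2.isDiag_map ρ.injective]
  exact he.2

/-- the overlap identity, as an inequality -/
lemma overlap (ρ : Equiv.Perm (Fin n)) (H : Finset (Sym2 (Fin n))) (hH : H ⊆ P n) :
    ((P n \ H).filter (fun e => (act ρ).symm e ∈ P n \ H)).card + 2 * H.card ≤
      n.choose 2 + inner (act ρ).symm H := by
  have hdisj : Disjoint ((P n \ H).filter (fun e => (act ρ).symm e ∈ P n \ H)) (H ∪ H.image (act ρ)) := by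
    rw [Finset.disjoint_left]
    intro e he
    rw [mem_filter, Finset.mem_sdiff, Finset.mem_sdiff] at he
    rw [mem_union, mem_image]
    rintro (h | ⟨x, hx, rfl⟩)
    · exact he.1.2 h
    · apply he.2.2
      rwa [Equiv.symm_apply_apply]
  have hun : ((P n \ H).filter (fun e => (act ρ).symm e ∈ P n \ H)) ∪ (H ∪ H.image (act ρ)) ⊆ P n := by
    intro e he
    rw [mem_union, mem_union, mem_filter, Finset.mem_sdiff, mem_image] at he
    rcases he with h | h | ⟨x, hx, rfl⟩
    · exact h.1.1
    · exact hH h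
    · exact act_mem_P ρ (hH hx)
  have h1 := card_le_card hun
  rw [card_union_of_disjoint hdisj, card_P] at h1
  have h2 := card_union_add_card_inter H (H.image (act ρ))
  rw [card_image_of_injective _ (act ρ).injective] at h2
  have h3 : (H ∩ H.image (act ρ)).card ≤ inner (act ρ).symm H := by
    unfold Pool.Agent.Helper1.UniqA.inner
    refine card_le_card ?_
    intro e he
    rw [mem_inter, mem_image] at he
    rw [mem_filter]
    obtain ⟨he1, x, hx, rfl⟩ := he
    refine ⟨he1, ?_⟩
    rwa [Equiv.symm_apply_apply]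
  omega

lemma mdef (n : ℕ) : m n = n.choose 2 - tt n := rfl

/-- the sum of the numbers of non-unique subgraphs -/
lemma sum_bad (n : ℕ) (hG : Good n) (hle : tt n ≤ n.choose 2) :
    ∑ G ∈ univ.filter (fun G : SimpleGraph (Fin n) => Nat.card G.edgeSet = m n), ((bad G).card : ℝ) ≤
      2 ^ (m n) * ((n.choose 2).choose (tt n) : ℝ) * eps n := by
  have hbij : ∑ G ∈ univ.filter (fun G : SimpleGraph (Fin n) => Nat.card G.edgeSet = m n), ((bad G).card : ℝ) =
      ∑ H ∈ (P n).powersetCard (tt n), ((bad (gr (P n \ H))).card : ℝ) := by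
    refine sum_nbij' (fun G => P n \ toF G) (fun H => gr (P n \ H)) ?_ ?_ ?_ ?_ ?_
    · intro G hG'
      rw [mem_filter] at hG'
      rw [mem_powersetCard]
      refine ⟨sdiff_subset, ?_⟩
      rw [card_sdiff_of_subset (toF_sub G), card_P, card_toF, hG'.2, mdef]
      omega
    · intro H hH
      rw [mem_powersetCard] at hH
      rw [mem_filter]
      refine ⟨mem_univ _, ?_⟩
      rw [← card_toF, toF_gr sdiff_subset, card_sdiff_of_subset hH.1, card_P, hH.2, mdef]
    · intro G _
      rw [Finset.sdiff_sdiff_eq_self (toF_sub G), gr_toF]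
    · intro H hH
      rw [mem_powersetCard] at hH
      rw [toF_gr sdiff_subset, Finset.sdiff_sdiff_eq_self hH.1]
    · intro G _
      rw [Finset.sdiff_sdiff_eq_self (toF_sub G), gr_toF]
  rw [hbij]
  have h1 : ∑ H ∈ (P n).powersetCard (tt n), ((bad (gr (P n \ H))).card : ℝ) ≤
      ∑ H ∈ (P n).powersetCard (tt n), (2 ^ (m n) / 2 ^ (tt n) : ℝ) * ∑ ρ ∈ univ.filter (fun ρ : Equiv.Perm (Fin n) => ρ ≠ 1),
      (2:ℝ) ^ (inner (act ρ).symm H) := by
    refine sum_le_sum ?_
    intro H hH
    rw [mem_powersetCard] at hH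
    have h2 := bad_count (gr (P n \ H))
    rw [toF_gr sdiff_subset] at h2
    have h3 : ((bad (gr (P n \ H))).card : ℝ) ≤ ∑ ρ ∈ univ.filter (fun ρ : Equiv.Perm (Fin n) => ρ ≠ 1),
      (2:ℝ) ^ ((P n \ H).filter (fun e => (act ρ).symm e ∈ P n \ H)).card := by exact_mod_cast h2
    refine le_trans h3 ?_
    rw [mul_sum]
    refine sum_le_sum ?_
    intro ρ _
    have h4 := overlap ρ H hH.1
    rw [hH.2] at h4
    rw [div_mul_eq_mul_div, le_div_iff₀ (by positivity), ← pow_add, ← pow_add]
    apply pow_le_pow_right₀ (by norm_num)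
    rw [mdef]
    omega
  refine le_trans h1 ?_
  rw [← mul_sum]
  have h5 := double_sum n hG
  calc (2 ^ (m n) / 2 ^ (tt n) : ℝ) * _ ≤ (2 ^ (m n) / 2 ^ (tt n) : ℝ) * (2 ^ (tt n) * ((n.choose 2).choose (tt n) : ℝ) * eps n) := by
        gcongr
    _ = _ := by field_simp

lemma card_graphs (n : ℕ) (hle : tt n ≤ n.choose 2) :
    (univ.filter (fun G : SimpleGraph (Fin n) => Nat.card G.edgeSet = m n)).card = (n.choose 2).choose (tt n) := by
  have h : (univ.filter (fun G : SimpleGraph (Fin n) => Nat.card G.edgeSet = m n)).card = ((P n).powersetCard (m n)).card := by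
    refine card_nbij' toF gr ?_ ?_ ?_ ?_
    · intro G hG
      rw [mem_coe, mem_filter] at hG
      rw [mem_coe, mem_powersetCard]
      exact ⟨toF_sub G, by rw [card_toF]; exact hG.2⟩
    · intro A hA
      rw [mem_coe, mem_powersetCard] at hA
      rw [mem_coe, mem_filter]
      exact ⟨mem_univ _, by rw [← card_toF, toF_gr hA.1]; exact hA.2⟩
    · intro G _
      exact gr_toF G
    · intro A hA
      rw [mem_coe, mem_powersetCard] at hA
      exact toF_gr hA.1
  rw [h, card_powersetCard, card_P, mdef, Nat.choose_symm hle]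

lemma u_add_bad (G : SimpleGraph (Fin n)) : 2 ^ (Nat.card G.edgeSet) ≤ u G + (bad G).card := by
  have h1 : u G = (univ.filter (fun F => IsUniqueSubgraph G F)).card := by
    rw [u, Nat.card_eq_fintype_card, Fintype.card_subtype]
  rw [h1, ← card_toF, ← card_powerset]
  have h2 : (toF G).powerset.card ≤ (univ.filter (fun F => F ≤ G)).card := by
    refine card_le_card_of_injOn gr ?_ ?_
    · intro A hA
      rw [mem_coe, mem_powerset] at hA
      rw [mem_coe, mem_filter]
      refine ⟨mem_univ _, ?_⟩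
      rw [toF_le, toF_gr (hA.trans (toF_sub G))]
      exact hA
    · intro A hA B hB hAB
      rw [mem_coe, mem_powerset] at hA hB
      have := congrArg toF hAB
      rwa [toF_gr (hA.trans (toF_sub G)), toF_gr (hB.trans (toF_sub G))] at this
  refine le_trans h2 ?_
  have h3 : univ.filter (fun F => F ≤ G) ⊆ univ.filter (fun F => IsUniqueSubgraph G F) ∪ bad G := by
    intro F hF
    rw [mem_filter] at hF
    rw [mem_union, bad, mem_filter, mem_filter]
    by_cases h : IsUniqueSubgraph G F
    · left; exact ⟨mem_univ _, h⟩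
    · right; exact ⟨mem_univ _, hF.2, h⟩
  exact le_trans (card_le_card h3) (card_union_le _ _)

lemma prob_lower (n : ℕ) (hG : Good n) (c : ℝ) (hc : c < 1) :
    1 - eps n / (1 - c) ≤ prob n (fun G => c * 2 ^ (m n) ≤ (u G : ℝ)) := by
  have htl := t_lt n hG
  have hle : tt n ≤ n.choose 2 := by
    have : (tt n : ℝ) ≤ ((n.choose 2 : ℕ) : ℝ) := by
      have : 0 ≤ (n:ℝ) ^ 2 / 4 := by positivity
      linarith
    exact_mod_cast this
  have hs := sum_bad n hG hle
  have hcard := card_graphs n hle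
  set S := univ.filter (fun G : SimpleGraph (Fin n) => Nat.card G.edgeSet = m n) with hS
  have hC0 : (0:ℝ) < ((n.choose 2).choose (tt n) : ℝ) := by exact_mod_cast Nat.choose_pos hle
  have hden : (Nat.card {G : SimpleGraph (Fin n) // Nat.card G.edgeSet = m n} : ℝ) = ((n.choose 2).choose (tt n) : ℝ) := by
    rw [← hcard, Nat.card_eq_fintype_card, Fintype.card_subtype]
  have hnum : (Nat.card {G : SimpleGraph (Fin n) // Nat.card G.edgeSet = m n ∧ c * 2 ^ (m n) ≤ (u G : ℝ)} : ℝ) =
      ((S.filter (fun G => c * 2 ^ (m n) ≤ (u G : ℝ))).card : ℝ) := by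
    rw [Nat.card_eq_fintype_card, Fintype.card_subtype, hS, filter_filter]
  rw [prob, hden, hnum]
  have hsplit : ((S.filter (fun G => c * 2 ^ (m n) ≤ (u G : ℝ))).card : ℝ) +
      ((S.filter (fun G => ¬ c * 2 ^ (m n) ≤ (u G : ℝ))).card : ℝ) = ((n.choose 2).choose (tt n) : ℝ) := by
    rw [← hcard, ← card_filter_add_card_filter_not (s := S) (fun G => c * 2 ^ (m n) ≤ (u G : ℝ))]
    push_cast; ring
  have hmark : ((S.filter (fun G => ¬ c * 2 ^ (m n) ≤ (u G : ℝ))).card : ℝ) * ((1 - c) * 2 ^ (m n)) ≤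
      2 ^ (m n) * ((n.choose 2).choose (tt n) : ℝ) * eps n := by
    refine le_trans ?_ hs
    rw [← nsmul_eq_mul, ← sum_const]
    refine le_trans (sum_le_sum (g := fun G => ((bad G).card : ℝ)) ?_) ?_
    · intro G hG'
      rw [mem_filter, hS, mem_filter] at hG'
      have h1 := u_add_bad G
      rw [hG'.1.2] at h1
      have h2 : (2:ℝ) ^ (m n) ≤ u G + (bad G).card := by exact_mod_cast h1
      have h3 := hG'.2
      push Not at h3
      have : (1 - c) * 2 ^ (m n) = 2 ^ (m n) - c * 2 ^ (m n) := by ring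
      rw [this]
      linarith
    · refine sum_le_sum_of_subset_of_nonneg (filter_subset _ _) ?_
      intro G _ _
      positivity
  have hc1 : 0 < 1 - c := by linarith
  have h2m : (0:ℝ) < 2 ^ (m n) := by positivity
  have h5 : ((S.filter (fun G => ¬ c * 2 ^ (m n) ≤ (u G : ℝ))).card : ℝ) ≤
      ((n.choose 2).choose (tt n) : ℝ) * (eps n / (1 - c)) := by
    rw [← mul_div_assoc, le_div_iff₀ hc1]
    have h6 : ((S.filter (fun G => ¬ c * 2 ^ (m n) ≤ (u G : ℝ))).card : ℝ) * (1 - c) * 2 ^ (m n) ≤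
        ((n.choose 2).choose (tt n) : ℝ) * eps n * 2 ^ (m n) := by linarith
    exact le_of_mul_le_mul_right h6 h2m
  rw [le_div_iff₀ hC0]
  nlinarith

lemma prob_le_one (n : ℕ) (Q : SimpleGraph (Fin n) → Prop) : prob n Q ≤ 1 := by
  unfold prob
  apply div_le_one_of_le₀ _ (Nat.cast_nonneg _)
  have : Nat.card {G : SimpleGraph (Fin n) // Nat.card G.edgeSet = m n ∧ Q G} ≤
      Nat.card {G : SimpleGraph (Fin n) // Nat.card G.edgeSet = m n} := by
    rw [Nat.card_eq_fintype_card, Nat.card_eq_fintype_card]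
    apply Fintype.card_subtype_mono
    intro G hG
    exact hG.1
  exact_mod_cast this

end proof

/-- For every constant `c < 1`, a uniformly random graph with `n` vertices and
`n choose 2 - ⌊n log n / log 2⌋` edges has, with probability tending to one, at least
`c 2^m` unique subgraphs; in particular such graphs exist for all large `n`. -/
theorem result :
    (∀ c : ℝ, c < 1 →
      Tendsto (fun n => prob n (fun G => c * 2 ^ (m n) ≤ (u G : ℝ))) atTop (𝓝 1)) ∧
    (∀ c : ℝ, c < 1 → ∀ᶠ n : ℕ in atTop, ∃ G : SimpleGraph (Fin n),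
      Nat.card G.edgeSet = m n ∧ c * 2 ^ (m n) ≤ (u G : ℝ)) := by
  have main : ∀ c : ℝ, c < 1 →
      Tendsto (fun n => prob n (fun G => c * 2 ^ (m n) ≤ (u G : ℝ))) atTop (𝓝 1) := by
    intro c hc
    have h1 : Tendsto (fun n => 1 - Pool.Agent.Helper1.UniqE.eps n / (1 - c)) atTop (𝓝 1) := by
      have := (Pool.Agent.Helper1.UniqE.eps_tendsto.div_const (1 - c)).const_sub 1
      simpa using this
    refine tendsto_of_tendsto_of_tendsto_of_le_of_le' h1 tendsto_const_nhds ?_ ?_
    · filter_upwards [Pool.Agent.Helper1.UniqE.ev_good] with n hn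
      exact prob_lower n hn c hc
    · exact Eventually.of_forall (fun n => prob_le_one n _)
  refine ⟨main, ?_⟩
  intro c hc
  have h2 := (main c hc).eventually (lt_mem_nhds (by norm_num : (0:ℝ) < 1))
  filter_upwards [h2] with n hn
  by_contra hcon
  have h3 : Nat.card {G : SimpleGraph (Fin n) // Nat.card G.edgeSet = m n ∧ c * 2 ^ (m n) ≤ (u G : ℝ)} = 0 := by
    rw [Nat.card_eq_zero]
    left
    refine ⟨?_⟩
    rintro ⟨G, hG⟩
    exact hcon ⟨G, hG⟩
  unfold prob at hn
  rw [h3] at hn
  simp at hn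

end Pool.Agent.Results.MP_618f8d_co.UniqueSubgraphs
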